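import Mathlib

/-!
# Two algebras of dimension at most one embed in a third one
-/

set_option autoImplicit false

open Polynomial

namespace Pool.Agent.Helper7.OC

/-- An integral domain which is integral over `k[X]` has dimension at most one. -/
lemma dim_le_one {k : Type} [Field k] (E : Type) [CommRing E] [IsDomain E] [Algebra k[X] E]
    [Algebra.IsIntegral k[X] E] : ringKrullDim E ≤ 1 := by
  have h : Ring.DimensionLEOne E := by
    refine ⟨fun {p} hp hpp => ?_⟩
    have h1 : p.comap (algebraMap k[X] E) ≠ ⊥ := fun h => hp (Ideal.eq_bot_of_comap_eq_bot h)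
    have h2 : (p.comap (algebraMap k[X] E)).IsPrime := Ideal.comap_isPrime _ _
    have h3 : (p.comap (algebraMap k[X] E)).IsMaximal := h2.isMaximal h1
    exact Ideal.isMaximal_of_isIntegral_of_isMaximal_comap p h3
  have h3 : Ring.KrullDimLE 1 E := inferInstance
  exact Order.KrullDimLE.krullDim_le

/-- In a domain `A` of dimension at most one which is integral over a subring `k[x_1, …, x_s]` we have
`s ≤ 1`. -/
lemma le_one_of_dim {k : Type} [Field k] {A : Type} [CommRing A] [IsDomain A] {s : ℕ}
    [Algebra (MvPolynomial (Fin s) k) A] [Algebra.IsIntegral (MvPolynomial (Fin s) k) A]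
    (hinj : Function.Injective (algebraMap (MvPolynomial (Fin s) k) A)) (hd : ringKrullDim A ≤ 1) :
    s ≤ 1 := by
  by_contra hs
  push Not at hs
  let R := MvPolynomial (Fin s) k
  let i0 : Fin s := ⟨0, by omega⟩
  let i1 : Fin s := ⟨1, hs⟩
  let P1 : Ideal R := Ideal.span {MvPolynomial.X i0}
  have hP1 : P1.IsPrime := by
    rw [Ideal.span_singleton_prime (MvPolynomial.X_ne_zero i0)]
    exact MvPolynomial.X_prime
  let ev : R →+* k := MvPolynomial.eval (fun _ => (0 : k))
  let P2 : Ideal R := RingHom.ker ev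
  have hP2 : P2.IsPrime := RingHom.ker_isPrime ev
  have h12 : P1 ≤ P2 := by
    rw [Ideal.span_singleton_le_iff_mem, RingHom.mem_ker]
    exact MvPolynomial.eval_X _
  have hX1 : (MvPolynomial.X i1 : R) ∈ P2 := by
    rw [RingHom.mem_ker]
    exact MvPolynomial.eval_X _
  have hX1' : (MvPolynomial.X i1 : R) ∉ P1 := by
    rw [Ideal.mem_span_singleton, MvPolynomial.X_dvd_X]
    intro h
    have := congrArg Fin.val h
    simp [i0, i1] at this
  obtain ⟨Q1, -, hQ1, hc1⟩ := Ideal.exists_ideal_over_prime_of_isIntegral (S := A) P1 ⊥ (by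
    intro x hx
    rw [Ideal.mem_comap, Ideal.mem_bot] at hx
    rw [(map_eq_zero_iff _ hinj).mp hx]
    exact Ideal.zero_mem _)
  obtain ⟨Q2, hQ12, hQ2, hc2⟩ := Ideal.exists_ideal_over_prime_of_isIntegral (S := A) P2 Q1 (by
    rw [hc1]; exact h12)
  have h := Order.krullDim_le_one_iff.mp hd ⟨Q1, hQ1⟩
  rcases h with h | h
  · have h1 : (⟨⊥, Ideal.isPrime_bot⟩ : PrimeSpectrum A) ≤ ⟨Q1, hQ1⟩ := (bot_le : (⊥ : Ideal A) ≤ Q1)
    have h2 : Q1 ≤ ⊥ := h h1
    have h3 : (MvPolynomial.X i0 : R) ∈ P1 := Ideal.mem_span_singleton_self _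
    rw [← hc1, Ideal.mem_comap] at h3
    have h4 := h2 h3
    rw [Ideal.mem_bot, map_eq_zero_iff _ hinj] at h4
    exact MvPolynomial.X_ne_zero i0 h4
  · have h1 : (⟨Q1, hQ1⟩ : PrimeSpectrum A) ≤ ⟨Q2, hQ2⟩ := hQ12
    have h2 : Q2 ≤ Q1 := h h1
    apply hX1'
    rw [← hc1, Ideal.mem_comap]
    apply h2
    rw [← Ideal.mem_comap, hc2]
    exact hX1

/-- The algebraic closure of `k(X)`. -/
abbrev Om (k : Type) [Field k] : Type := AlgebraicClosure (RatFunc k)

/-- The embedding of `k[X]`. -/
lemma om_inj (k : Type) [Field k] : Function.Injective (algebraMap k[X] (Om k)) := by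
  rw [IsScalarTower.algebraMap_eq k[X] (RatFunc k) (Om k)]
  exact (algebraMap (RatFunc k) (Om k)).injective.comp (IsFractionRing.injective k[X] (RatFunc k))

/-- Domains of dimension at most one embed into the algebraic closure of `k(X)` with values integral over
`k[X]`. -/
lemma exists_emb {k : Type} [Field k] (A : Type) [CommRing A] [IsDomain A] [Algebra k A]
    [Algebra.FiniteType k A] (hd : ringKrullDim A ≤ 1) :
    ∃ φ : A →ₐ[k] Om k, Function.Injective φ ∧ ∀ a, IsIntegral k[X] (φ a) := by
  obtain ⟨s, g, hg, hi⟩ := exists_integral_inj_algHom_of_fg k A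
  have hs : s ≤ 1 := by
    letI : Algebra (MvPolynomial (Fin s) k) A := g.toRingHom.toAlgebra
    haveI : Algebra.IsIntegral (MvPolynomial (Fin s) k) A := ⟨hi⟩
    exact le_one_of_dim hg hd
  have hfk : FaithfulSMul k (Om k) := inferInstance
  rcases Nat.le_one_iff_eq_zero_or_eq_one.mp hs with rfl | rfl
  · have hint : Algebra.IsIntegral k A := by
      refine ⟨fun a => ?_⟩
      obtain ⟨p, hp, hpa⟩ := hi a
      let e : MvPolynomial (Fin 0) k ≃ₐ[k] k := MvPolynomial.isEmptyAlgEquiv k (Fin 0)
      refine ⟨p.map (e : MvPolynomial (Fin 0) k →+* k), hp.map _, ?_⟩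
      rw [Polynomial.eval₂_map]
      have h1 : (algebraMap k A).comp (e : MvPolynomial (Fin 0) k →+* k) = (g : _ →+* A) := by
        refine MvPolynomial.ringHom_ext (fun x => ?_) fun x => x.elim0
        have h2 : e (MvPolynomial.C x) = x := by
          rw [← MvPolynomial.algebraMap_eq]
          exact e.commutes x
        have h3 : g (MvPolynomial.C x) = algebraMap k A x := by
          rw [← MvPolynomial.algebraMap_eq]
          exact g.commutes x
        change algebraMap k A (e (MvPolynomial.C x)) = g (MvPolynomial.C x)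
        rw [h2, h3]
      rw [h1]
      exact hpa
    haveI : Algebra.IsAlgebraic k A := inferInstance
    let φ : A →ₐ[k] Om k := IsAlgClosed.lift
    refine ⟨φ, ?_, fun a => ?_⟩
    · have hf : IsField A := isField_of_isIntegral_of_isField' (Field.toIsField k)
      letI := hf.toField
      exact φ.toRingHom.injective
    · have h1 : IsIntegral k (φ a) := (Algebra.IsIntegral.isIntegral a).map φ
      exact h1.tower_top
  · let e : k[X] ≃ₐ[k] MvPolynomial (Fin 1) k := (MvPolynomial.uniqueAlgEquiv k (Fin 1)).symm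
    let f : k[X] →ₐ[k] A := g.comp e.toAlgHom
    have hf : Function.Injective f := hg.comp e.injective
    have hfi : f.toRingHom.IsIntegral := by
      have h1 : (e.toAlgHom.toRingHom).IsIntegral := RingHom.isIntegral_of_surjective _ e.surjective
      exact RingHom.IsIntegral.trans _ _ h1 hi
    letI : Algebra k[X] A := f.toRingHom.toAlgebra
    haveI : IsScalarTower k k[X] A := IsScalarTower.of_algebraMap_eq' f.comp_algebraMap.symm
    haveI : Algebra.IsIntegral k[X] A := ⟨hfi⟩
    haveI : FaithfulSMul k[X] A := (faithfulSMul_iff_algebraMap_injective _ _).mpr hf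
    haveI : FaithfulSMul k[X] (Om k) := (faithfulSMul_iff_algebraMap_injective _ _).mpr (om_inj k)
    haveI : Algebra.IsAlgebraic k[X] A := inferInstance
    let φ : A →ₐ[k[X]] Om k := IsAlgClosed.lift
    refine ⟨φ.restrictScalars k, ?_, fun a => (Algebra.IsIntegral.isIntegral a).map φ⟩
    have hk : RingHom.ker φ.toRingHom = ⊥ := by
      refine Ideal.eq_bot_of_comap_eq_bot (R := k[X]) ?_
      rw [eq_bot_iff]
      intro x hx
      rw [Ideal.mem_comap, RingHom.mem_ker] at hx
      have h1 : algebraMap k[X] (Om k) x = 0 := by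
        rw [← φ.commutes x]; exact hx
      exact (map_eq_zero_iff _ (om_inj k)).mp h1
    exact (RingHom.injective_iff_ker_eq_bot φ.toRingHom).mpr hk

/-- Two integral domains of finite type and dimension at most one over a field embed in a third one. -/
lemma exists_common_curve {k : Type} [Field k] (A B : Type) [CommRing A] [CommRing B] [Algebra k A]
    [Algebra k B] [IsDomain A] [IsDomain B] [Algebra.FiniteType k A] [Algebra.FiniteType k B]
    (hA : ringKrullDim A ≤ 1) (hB : ringKrullDim B ≤ 1) :
    ∃ (C : Type) (_ : CommRing C) (_ : Algebra k C), IsDomain C ∧ Algebra.FiniteType k C ∧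
      ringKrullDim C ≤ 1 ∧
      ∃ (f : A →ₐ[k] C) (g : B →ₐ[k] C), Function.Injective f ∧ Function.Injective g := by
  obtain ⟨φ, hφ, hφi⟩ := exists_emb (k := k) A hA
  obtain ⟨ψ, hψ, hψi⟩ := exists_emb (k := k) B hB
  let t : Om k := algebraMap k[X] (Om k) X
  let C : Subalgebra k (Om k) := (φ.range ⊔ ψ.range) ⊔ Algebra.adjoin k {t}
  have hle : C ≤ (integralClosure k[X] (Om k)).restrictScalars k := by
    refine sup_le (sup_le ?_ ?_) ?_
    · rintro _ ⟨a, rfl⟩
      exact hφi a
    · rintro _ ⟨b, rfl⟩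
      exact hψi b
    · rw [Algebra.adjoin_le_iff, Set.singleton_subset_iff]
      exact isIntegral_algebraMap
  have htC : t ∈ C := (le_sup_right : Algebra.adjoin k {t} ≤ C) (Algebra.self_mem_adjoin_singleton k t)
  have hfg : C.FG := by
    refine Subalgebra.FG.sup (Subalgebra.FG.sup ?_ ?_) (Subalgebra.fg_adjoin_finset {t} |> fun h => by
      simpa using h)
    · exact (Subalgebra.fg_top φ.range).mp ((Algebra.FiniteType.of_surjective φ.rangeRestrict
        φ.rangeRestrict_surjective).out)
    · exact (Subalgebra.fg_top ψ.range).mp ((Algebra.FiniteType.of_surjective ψ.rangeRestrict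
        ψ.rangeRestrict_surjective).out)
  let f : k[X] →ₐ[k] C := aeval (⟨t, htC⟩ : C)
  have hfv : ∀ p : k[X], ((f p : C) : Om k) = algebraMap k[X] (Om k) p := by
    intro p
    have h1 : C.val.comp f = (IsScalarTower.toAlgHom k k[X] (Om k)) := by
      ext
      simp [f, t]
    exact congrArg (fun h : k[X] →ₐ[k] Om k => h p) h1
  letI : Algebra k[X] C := f.toRingHom.toAlgebra
  haveI : Algebra.IsIntegral k[X] C := by
    refine ⟨fun c => ?_⟩
    obtain ⟨p, hp, hpc⟩ := hle c.2
    refine ⟨p, hp, ?_⟩
    apply Subtype.val_injective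
    change C.val (eval₂ f.toRingHom c p) = 0
    have h1 : C.val (eval₂ f.toRingHom c p) = eval₂ ((C.val : C →+* Om k).comp f.toRingHom) (c : Om k) p := by
      exact Polynomial.hom_eval₂ p f.toRingHom (C.val : C →+* Om k) c
    rw [h1]
    have h2 : (C.val : C →+* Om k).comp f.toRingHom = algebraMap k[X] (Om k) :=
      RingHom.ext hfv
    rw [h2]
    exact hpc
  refine ⟨C, inferInstance, inferInstance, inferInstance, ⟨(Subalgebra.fg_top C).mpr hfg⟩,
    dim_le_one (k := k) C, φ.codRestrict C fun a => ?_, ψ.codRestrict C fun b => ?_, ?_, ?_⟩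
  · exact (le_sup_left.trans le_sup_left : φ.range ≤ C) ⟨a, rfl⟩
  · exact (le_sup_right.trans le_sup_left : ψ.range ≤ C) ⟨b, rfl⟩
  · exact fun x y h => hφ (congrArg Subtype.val h)
  · exact fun x y h => hψ (congrArg Subtype.val h)

end Pool.Agent.Helper7.OC
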