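import Pool.Agent.Helper53.OS.Seq
import Pool.Agent.Helper10.PC.Curve
import Pool.Agent.Helper7.OC.Alg

/-!
# One tower of one-dimensional moduli spaces of planar configurations

Uses the methods of `Pool.Agent.Helper53.OS.Seq` (helper53) for schemes of arbitrary dimension.
-/

set_option autoImplicit false

open CategoryTheory CategoryTheory.Limits AlgebraicGeometry Pool.Agent.Y116.UV Pool.Agent.Q193.LT
  Pool.Agent.Q282.UK Pool.Agent.Z125.UN Pool.Agent.Helper3.GU Pool.Agent.Helper13.RM
  Pool.Agent.Helper10.PC Pool.Agent.Helper53.OS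

namespace Pool.Agent.Helper7.OC

variable {k : Type} [Field k]

lemma dim_aff (C : Type) [CommRing C] [Algebra k C] :
    topologicalKrullDim (aff k C).left = ringKrullDim C :=
  PrimeSpectrum.topologicalKrullDim_eq_ringKrullDim C

/-- Each integral affine scheme of finite type and of dimension at most one is dominated by a smooth integral
moduli space of planar configurations of dimension at most one. -/
theorem exists_dominating_curve [PerfectField k] (hR : Presents ({0, 1} : Set k)) (C : Type)
    [CommRing C] [Algebra k C] [IsDomain C] [Algebra.FiniteType k C] (hd : ringKrullDim C ≤ 1) :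
    ∃ M : Mat, SmoothMod k 1 M.2 ∧ Dominates (modS k M.2) (aff k C) := by
  obtain ⟨w, hw, hs⟩ := generic_smooth_field (k := k) C
  have hdm : IsDomain (Localization.Away w) :=
    IsLocalization.isDomain_localization (powers_le_nonZeroDivisors_of_noZeroDivisors hw)
  have hft : Algebra.FiniteType k (Localization.Away w) := ft_loc _ _
  let W : Sch k := aff k (Localization.Away w)
  have hi : IsIntegral W.left := by
    change IsIntegral (Spec (CommRingCat.of (Localization.Away w)))
    rw [affine_isIntegral_iff]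
    exact hdm
  have hi' : IsIntegral (aff k C).left := by
    change IsIntegral (Spec (CommRingCat.of C))
    rw [affine_isIntegral_iff]
    infer_instance
  have hW : FT True W := ft_aff True
  let o : W ⟶ aff k C := affMap (IsScalarTower.toAlgHom k C (Localization.Away w))
  have ho : IsOpenImmersion o.left :=
    Scheme.isOpenImmersion_SpecMap_localizationAway (R := .of C) w
  obtain ⟨n, M, s, g1, g2, g3, g4⟩ := exists_open_mod (sep := True) hR W hW
  have hdom := isDomain_of_open s g3 g4
  have hsm : Smooth (modS k M).hom := smooth_of_open s g3 (smooth_aff_iff.2 hs)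
  have hMi : IsIntegral (modS k M).left := (affine_isIntegral_iff _).mpr hdom
  have hso : IsOpenImmersion (s ≫ o).left := by
    change IsOpenImmersion (s.left ≫ o.left)
    infer_instance
  have hdim : topologicalKrullDim (modS k M).left ≤ 1 := by
    refine (Scheme.Hom.isOpenEmbedding (s ≫ o).left).isInducing.topologicalKrullDim_le.trans ?_
    rw [dim_aff]
    exact hd
  exact ⟨⟨n, M⟩, ⟨g1, g2, hdom, smooth_aff_iff.1 hsm, hdim⟩, ft_modT _, hsm, hMi, s ≫ o,
    dominant_open (s ≫ o) hso g4 hi'⟩

/-- Finitely many matroids. -/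
theorem finite_curve (e : ℕ → Mat) (m : ℕ) :
    ∃ (C : Type) (_ : CommRing C) (_ : Algebra k C), IsDomain C ∧ Algebra.FiniteType k C ∧
      ringKrullDim C ≤ 1 ∧
      ∀ U : Sch k, Dominates U (aff k C) → ∀ j < m, IsDomain (ModR k (e j).2) →
        ringKrullDim (ModR k (e j).2) ≤ 1 → Dominates U (modS k (e j).2) := by
  induction m with
  | zero => exact ⟨k, inferInstance, inferInstance, inferInstance, inferInstance,
      (ringKrullDim_eq_zero_of_field k).le.trans zero_le_one,
      fun U hU j hj => absurd hj (Nat.not_lt_zero j)⟩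
  | succ m ih =>
    obtain ⟨C, _, _, _, _, hC, h4⟩ := ih
    by_cases hdom : IsDomain (ModR k (e m).2) ∧ ringKrullDim (ModR k (e m).2) ≤ 1
    · obtain ⟨hdom, hdim⟩ := hdom
      obtain ⟨E, _, _, h1, h2, h3, a, b, ha, hb⟩ :=
        exists_common_curve (k := k) C (ModR k (e m).2) hC hdim
      refine ⟨E, inferInstance, inferInstance, h1, h2, h3, fun W hW j hj hd hd' => ?_⟩
      rcases Nat.lt_succ_iff_lt_or_eq.mp hj with hj | rfl
      · exact h4 W (hW.trans (affMap a) (dominant_affMap a ha)) j hj hd hd'
      · exact hW.trans (affMap b) (dominant_affMap b hb)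
    · refine ⟨C, inferInstance, inferInstance, inferInstance, inferInstance, hC,
        fun W hW j hj hd hd' => ?_⟩
      rcases Nat.lt_succ_iff_lt_or_eq.mp hj with hj | rfl
      · exact h4 W hW j hj hd hd'
      · exact absurd ⟨hd, hd'⟩ hdom

lemma Dominates.comp {U V W : Sch k} (h : Dominates U V) (h' : Dominates V W) : Dominates U W := by
  obtain ⟨g, hg⟩ := h'.dominant
  exact h.trans g hg

/-- A cofinal sequence of one-dimensional moduli spaces of planar configurations. -/
theorem exists_seq_curve [PerfectField k] (hR : Presents ({0, 1} : Set k)) :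
    ∃ M : ℕ → Mat, (∀ i, SmoothMod k 1 (M i).2) ∧
      ∀ X : Sch k, FT True X → IsIntegral X.left → topologicalKrullDim X.left ≤ 1 →
        ∃ i₀, ∀ i, i₀ ≤ i → Dominates (modS k (M i).2) X := by
  have hne : Nonempty Mat := ⟨⟨0, Matroid.emptyOn _⟩⟩
  obtain ⟨e, he⟩ := exists_surjective_nat Mat
  have key : ∀ m : ℕ, ∃ M : Mat, SmoothMod k 1 M.2 ∧
      ∀ j < m, IsDomain (ModR k (e j).2) → ringKrullDim (ModR k (e j).2) ≤ 1 →
        Dominates (modS k M.2) (modS k (e j).2) := by
    intro m
    obtain ⟨C, _, _, _, _, hC, h4⟩ := finite_curve (k := k) e m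
    obtain ⟨M, hM, hd⟩ := exists_dominating_curve hR C hC
    exact ⟨M, hM, h4 _ hd⟩
  choose M hM h4 using key
  choose f hf using he
  refine ⟨M, hM, fun X hX hi hdX => ?_⟩
  obtain ⟨n, N, s, g1, g2, g3, g4⟩ := exists_open_mod (sep := True) hR X hX
  have hdom := isDomain_of_open s g3 g4
  have hdim : ringKrullDim (ModR k N) ≤ 1 := by
    rw [← dim_aff (k := k)]
    exact (Scheme.Hom.isOpenEmbedding s.left).isInducing.topologicalKrullDim_le.trans hdX
  refine ⟨f ⟨n, N⟩ + 1, fun i hi' => ?_⟩
  have h5 := h4 i (f ⟨n, N⟩) (by omega)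
  rw [hf ⟨n, N⟩] at h5
  exact (h5 hdom hdim).trans s (dominant_open s g3 g4 hi)

/-- **A cofinal tower of one-dimensional moduli spaces of planar configurations.** -/
theorem exists_tower [PerfectField k] (hR : Presents ({0, 1} : Set k)) :
    ∃ M : ℕ → Mat, (∀ i, SmoothMod k 1 (M i).2) ∧
      (∀ i j, i < j → Dominates (modS k (M j).2) (modS k (M i).2)) ∧
      ∀ X : Sch k, FT True X → IsIntegral X.left → topologicalKrullDim X.left ≤ 1 →
        ∃ i₀, ∀ i, i₀ ≤ i → Dominates (modS k (M i).2) X := by
  obtain ⟨M, hM, h⟩ := exists_seq_curve (k := k) hR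
  have h1 : ∀ i, ∃ i₀, ∀ j, i₀ ≤ j → Dominates (modS k (M j).2) (modS k (M i).2) := fun i =>
    h _ (ft_modT _) ((affine_isIntegral_iff _).mpr (hM i).domain) (hM i).dim
  choose f hf using h1
  let n : ℕ → ℕ := fun i => Nat.rec 0 (fun _ a => max (a + 1) (f a)) i
  have hn : ∀ i, n (i + 1) = max (n i + 1) (f (n i)) := fun i => rfl
  have hmono : StrictMono n := strictMono_nat_of_lt_succ fun i => by
    rw [hn]; omega
  refine ⟨fun i => M (n i), fun i => hM _, fun i j hij => ?_, fun X hX hi hd => ?_⟩
  · refine hf (n i) (n j) ?_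
    have h2 : n (i + 1) ≤ n j := hmono.monotone hij
    rw [hn] at h2
    omega
  · obtain ⟨i₀, hi₀⟩ := h X hX hi hd
    exact ⟨i₀, fun i hi' => hi₀ _ (hi'.trans (hmono.id_le i))⟩

end Pool.Agent.Helper7.OC
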